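import Pool.Agent.H85G.R5
import Pool.Agent.H46FF.Geo
import Pool.Agent.N384.MQ.Quot

/-!
# Primes in short intervals, averaged over dense sets translated by the members of sets with small Fourier coefficients

`R(x, y) = (π(x + y) - π(x)) / (y / log x)`.

From Mathlib: `ZMod.stdAddChar`: the additive character `j ↦ exp (2 π i j / M)` of the integers modulo `M`; `ZMod.val`: the
least residue; `Nat.primeCounting`: the number of the primes; `orderOf`: the order of an element of a monoid (`0` if it is not
of finite order).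

Method: a family of residues modulo `M` with small Fourier coefficients has small exponential sums at all real frequencies
which are not close to integers, and the exponent can be chosen by compactness (`Pool.Agent.N384.MQ`, library); for
distributions with such exponential sums, `Pool.Agent.N625.DY` (library) replaces the primes by a model, and
`Pool.Agent.H85G.trans_one`, `Pool.Agent.H85G.flat_translates` (from the fundamental lemma of the sieve in intervals) gives
the averages over translates for all `y` above a power of `log M`. Examples: geometric progressions by a theorem of Bourgain,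
Glibichuk and Konyagin, extended by Bourgain and Chang to products of few primes (library: `Pool.Agent.H82.BC`), and a lemma
of Ajtai, Iwaniec, Komlos, Pintz and Szemeredi on quotients by small primes (library: `Pool.Agent.N384.MQ.Quot`).
-/

set_option autoImplicit false

namespace Pool.Agent.Results.MP_293bbf_nt.FourierFlatTranslates

open Finset

/-- The Fourier coefficients of the residues `y i`, `i ∈ s`, modulo `M` at the nonzero frequencies are at most
`η` times the number of the residues: `|∑ i ∈ s, e(h y_i / M)| ≤ η |s|` for all `h ≠ 0` modulo `M`. -/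
def Flat {ι : Type} (M : ℕ) [NeZero M] (η : ℝ) (s : Finset ι) (y : ι → ZMod M) : Prop :=
  ∀ h : ZMod M, h ≠ 0 → ‖∑ i ∈ s, (ZMod.stdAddChar (h * y i) : ℂ)‖ ≤ η * s.card

/-- `R(x, y) = (π(x + y) - π(x)) / (y / log x)` -/
noncomputable def R (x y : ℝ) : ℝ :=
  ((Nat.primeCounting ⌊x + y⌋₊ : ℝ) - Nat.primeCounting ⌊x⌋₊) / (y / Real.log x)

open Classical in
/-- The average of `R(n + x, z)` over the `n ∈ A` differs from `1` by at most `ε`, and `R(n + x, z) ≥ ε / 2` for at least
`(1 / 4 - ε) |A|` elements `n` of `A`. -/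
def Regular (ε : ℝ) (A : Finset ℕ) (x : ℕ) (z : ℝ) : Prop :=
  |(∑ n ∈ A, R ((n + x : ℕ) : ℝ) z) / A.card - 1| ≤ ε ∧
    (1 / 4 - ε) * A.card ≤ ((A.filter fun n => ε / 2 ≤ R ((n + x : ℕ) : ℝ) z).card : ℝ)

open Classical in
/-- **(1)** Let `κ ≥ 1`, `a`, `U`, `W`, `D` and `0 < ε ≤ 1 / 4` be fixed. There is a number `V` such that the following holds
for all large integers `M`. Let `y i`, `i ∈ s`, be a finite family of residues modulo `M` whose Fourier coefficients at the
nonzero frequencies are at most `|s| / log ^ V M`, let `0 ≤ c ≤ M log ^ a M`, and let `A` be any set of at least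
`M / log ^ D M` integers of the interval `[1, M log ^ a M]`. Then all the `i ∈ s`, with at most `|s| / log ^ U M`
exceptions, have the following property: for ALL the numbers `x = c + κ y_i + t`, `1 ≤ t ≤ log ^ W M` (with the least
residue `0 ≤ y_i < M`), and ALL real `z` with `log ^ V M ≤ z ≤ M log ^ a M`: the average of `R(n + x, z)` over `n ∈ A` differs
from `1` by at most `ε`, and `R(n + x, z) ≥ ε / 2` for at least `(1 / 4 - ε) |A|` elements `n` of `A`.

**(2)** Example: let `δ > 0`, `m` and `V` be fixed. For all large squarefree `q` with at most `m` prime factors, the geometric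
progression `G g ^ i`, `0 ≤ i < N`, satisfies the condition of (1) modulo `q`, if `G` is coprime to `q`, `N ≥ q ^ δ` and the
order of `g` modulo every prime factor of `q` is at least `N`. (For instance all the cosets of all the subgroups of the
multiplicative group modulo a prime `q` of an order of at least `q ^ δ`.)

**(3)** Example: the quotients `j / r` of the integers `0 ≤ j < S` by the primes `r ≤ R` satisfy the condition of (1)
modulo all large primes `p`, if `log ^ (V + 4) p ≤ R < p` and `R ^ 2 ≤ S`; there are such sets with at most `log ^ (3 V + 13) p`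
members. -/
theorem result :
    (∀ κ : ℕ, 1 ≤ κ → ∀ (a U W D : ℕ) (ε : ℝ), 0 < ε → ε ≤ 1 / 4 → ∃ V M₀ : ℕ, ∀ M : ℕ, M₀ ≤ M → ∀ [NeZero M]
      (ι : Type) (s : Finset ι) (y : ι → ZMod M), Flat M (1 / Real.log M ^ V) s y →
      ∀ c : ℕ, (c : ℝ) ≤ M * Real.log M ^ a →
      ∀ A : Finset ℕ, (∀ n ∈ A, 1 ≤ n ∧ (n : ℝ) ≤ M * Real.log M ^ a) → (M : ℝ) / Real.log M ^ D ≤ A.card →
        ((s.filter fun i => ¬ ∀ t : ℕ, 1 ≤ t → (t : ℝ) ≤ Real.log M ^ W → ∀ z : ℝ, Real.log M ^ V ≤ z →
          z ≤ M * Real.log M ^ a → Regular ε A (c + κ * (y i).val + t) z).card : ℝ) ≤ s.card / Real.log M ^ U) ∧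
    (∀ (δ : ℝ), 0 < δ → ∀ m V : ℕ, ∃ q₀ : ℕ, ∀ q : ℕ, q₀ ≤ q → ∀ [NeZero q], Squarefree q →
      q.primeFactors.card ≤ m → ∀ G g N : ℕ, Nat.Coprime G q → (∀ p ∈ q.primeFactors, N ≤ orderOf (g : ZMod p)) →
      (q : ℝ) ^ δ ≤ N → Flat q (1 / Real.log q ^ V) (range N) (fun i => ((G * g ^ i : ℕ) : ZMod q))) ∧
    (∀ V : ℕ, ∃ P₀ : ℕ, ∀ p : ℕ, P₀ ≤ p → ∀ [Fact p.Prime], ∀ R S : ℕ, Real.log p ^ (V + 4) ≤ R → R < p → R ^ 2 ≤ S →
      Flat p (1 / Real.log p ^ V) (((Icc 1 R).filter Nat.Prime) ×ˢ range S)
        (fun z => ((z.2 : ℕ) : ZMod p) * ((z.1 : ℕ) : ZMod p)⁻¹)) := by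
  refine ⟨fun κ hκ a U W D ε hε hε1 => ?_, fun δ hδ n V => ?_, fun V => ?_⟩
  · obtain ⟨V, M₀, h1⟩ := Pool.Agent.H85G.flat_translates a κ hκ U W D ε hε hε1
    refine ⟨V, M₀ + 3, fun M hM _ ι s y hf c hc A hA hAM => ?_⟩
    have hM3 : (3 : ℝ) ≤ M := by exact_mod_cast (by omega : 3 ≤ M)
    have hL : 0 < Real.log M := Real.log_pos (by linarith)
    rw [div_le_iff₀ (by positivity)] at hAM
    have hR : ∀ (n : ℕ) (y : ℝ), R (n : ℝ) y = Pool.Agent.H85G.RR n y := by
      intro n y
      unfold R Pool.Agent.H85G.RR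
      rw [Nat.floor_natCast]
    have hreg : ∀ (x : ℕ) (z : ℝ), Regular ε A x z ↔ Pool.Agent.H85G.Av ε A x z := by
      intro x z
      unfold Regular Pool.Agent.H85G.Av
      simp only [hR]
    simp only [hreg]
    exact h1 M (by omega) ι s y hf c hc A hA hAM
  · exact Pool.Agent.H46FF.flat_geo δ hδ n V
  · exact Pool.Agent.N384.MQ.flat_quot V

end Pool.Agent.Results.MP_293bbf_nt.FourierFlatTranslates
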