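import Mathlib
import Pool.Agent.H39m.Fin

set_option autoImplicit false

/-!
# The primes imitate every sieve of intervals

Let `z = log X`. For EVERY choice of residue classes `r p` modulo the primes `p ≤ z`, the relative
densities in `(0, y]` of the integers `h ≢ r p (mod p)`, `p ≤ z`, are the mean values of
`R(n, y) = (π(n + y) - π(n)) / (y / log n)` with respect to some probability measure on the integers
`n` of `(X, 3 X)`, up to `ε`, simultaneously for all `y` between `(log X) ^ (1 + δ)` and `X ^ (9 / 10)`.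

Consequently the upper limit of every linear combination of the `R(x, (log x) ^ a)`, `a > 1`, is at
least the extremal value of the same linear combination for the interval sieve; in particular
`U((log x) ^ a)` is at least the upper limit of the largest densities of the interval sieve, and
`L((log x) ^ a)` at most the lower limit of the smallest ones.

Proof. Maier matrix whose rows lie in the class `- r p` modulo every prime of the modulus, and the
theorem of Bombieri and Vinogradov relative to a large modulus from the starting files; a few primes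
have to be left out in the modulus, which is repaired by an upper bound sieve for arbitrary classes.
-/

namespace Pool.Agent.Results.MP_293bbf_nt.IntervalSieveImitation

open Finset Filter

/-- `R(x, y) = (π(x + y) - π(x)) / (y / log x)` -/
noncomputable def R (x y : ℝ) : ℝ :=
  ((Nat.primeCounting ⌊x + y⌋₊ : ℝ) - Nat.primeCounting ⌊x⌋₊) / (y / Real.log x)

open Classical in
/-- number of the integers `1 ≤ h ≤ y` with `h ≢ r p (mod p)` for all primes `p ≤ z` -/
noncomputable def sifted (r : ℕ → ℕ) (z y : ℝ) : ℕ :=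
  #((Icc 1 ⌊y⌋₊).filter (fun h : ℕ => ∀ p : ℕ, p.Prime → (p : ℝ) ≤ z → ¬ h ≡ r p [MOD p]))

/-- relative density in `(0, y]` of the integers `h` with `h ≢ r p (mod p)` for all primes `p ≤ z` -/
noncomputable def density (r : ℕ → ℕ) (z y : ℝ) : ℝ :=
  sifted r z y / (y * ∏ p ∈ (Icc 1 ⌊z⌋₊).filter Nat.Prime, (1 - 1 / (p : ℝ)))

/-- (1) For `δ, ε > 0` and all `B`, for all large `X` and EVERY choice of classes `r` there are
weights `w n`, `0 ≤ w n ≤ X ^ (-9 / 10)`, on the integers `X < n < 3 X`, with sum `1`, such that the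
mean value of `R(n, y)` is within `ε` of the density `density r (log X) y` simultaneously for all
`(log X) ^ (1 + δ) ≤ y ≤ X ^ (9 / 10)`, and the mean value of `R(n, (log n) ^ t)` is within `ε` of
`density r (log X) ((log X) ^ t)` for all `1 + δ ≤ t ≤ B`.
(2) For all exponents `a i > 1` and all real coefficients `c i` the upper limit for `x → ∞` of
`∑ c i * R(x, (log x) ^ (a i))` is at least the upper limit for `z → ∞` of the supremum over ALL
choices of classes `r` of `∑ c i * density r z (z ^ (a i))`. -/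
theorem result :
    (∀ δ B ε : ℝ, 0 < δ → 0 < ε → ∀ᶠ X : ℝ in atTop, ∀ r : ℕ → ℕ,
      ∃ w : ℕ → ℝ, (∀ n, 0 ≤ w n ∧ w n ≤ X ^ (-(9 / 10) : ℝ)) ∧
        (∀ n, w n ≠ 0 → X < n ∧ (n : ℝ) < 3 * X) ∧ ∑ n ∈ Icc 1 ⌊3 * X⌋₊, w n = 1 ∧
        (∀ y : ℝ, Real.log X ^ (1 + δ) ≤ y → y ≤ X ^ (9 / 10 : ℝ) →
          |∑ n ∈ Icc 1 ⌊3 * X⌋₊, w n * R n y - density r (Real.log X) y| ≤ ε) ∧
        (∀ t : ℝ, 1 + δ ≤ t → t ≤ B →
          |∑ n ∈ Icc 1 ⌊3 * X⌋₊, w n * R n (Real.log n ^ t) -
            density r (Real.log X) (Real.log X ^ t)| ≤ ε)) ∧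
    ∀ (k : ℕ) (a c : Fin k → ℝ), (∀ i, 1 < a i) →
      limsup (fun z : ℝ => ⨆ r : ℕ → ℕ, ((∑ i, c i * density r z (z ^ a i) : ℝ) : EReal)) atTop ≤
        limsup (fun x : ℝ => ((∑ i, c i * R x (Real.log x ^ a i) : ℝ) : EReal)) atTop :=
  ⟨fun δ B ε hδ hε => Pool.Agent.H39m.main2 δ B ε hδ hε,
    fun _ a c ha => Pool.Agent.H39m.lim a c ha⟩

end Pool.Agent.Results.MP_293bbf_nt.IntervalSieveImitation
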