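import Pool.Agent.H85G.F
import Pool.Agent.H85G.R4

/-!
# `R(x, y)` is close to `1` on average over the translates of any dense set by random integers whose digits have long range
interactions, uniformly for all lengths `y` above a power of the logarithm

The translation is an integer close to `c + κ v` with a random integer `v < b ^ k`. The digits of `v` form a Gibbs measure:
the interactions have unbounded range, involve any number of digits, and are neither small nor translation invariant; the only
condition is that they are summable at each position. The a priori measure is an arbitrary Markov random field with flexible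
digits on an arbitrary graph of positions of bounded degree. The set `A` is an arbitrary set of at least `b ^ k / k ^ D`
integers up to `B b ^ k`. With a high probability, for ALL the translates of `A` by the integers nearby and ALL the lengths
`y`, `k ^ K ≤ y ≤ B b ^ k`, the average of `R(x, y)` over the translate is close to one, and `R(x, y)` is not small for nearly a
quarter of the points of the translate.

Method: the exponential sums over these measures are exponentially small in the number of the positions at which the
frequency has a digit which is not extremal (`Pool.Agent.H85G`); so for each shift `h` the mean of the absolute value of the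
sum over `A` of `Λ(a + x + h)` minus its sifted model is small (starting files, `Pool.Agent.N625.DY.G.cls_one`); the fundamental
lemma in short intervals, the dyadic means over `h` and, for the second assertion, the upper bound sieve in mean square
(starting files, `Pool.Agent.W301.SS`) give all the lengths.
-/

set_option autoImplicit false

namespace Pool.Agent.Results.MP_293bbf_nt.LongRangeGibbsTranslates

open Finset

/-- The digit of `v` at the position `i` in base `b` (the position `0` is the least significant one). -/
def dig (b v i : ℕ) : ℕ := v / b ^ i % b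

/-- The integer which has the digits of `v` at the positions in `S` and the digits of `w` at the other positions below `k`. -/
def splice (b k : ℕ) (S : Finset ℕ) (v w : ℕ) : ℕ := ∑ i ∈ range k, (if i ∈ S then dig b v i else dig b w i) * b ^ i

/-- `v` and `w` have the same digits outside the set `S` of positions. -/
def Off (b : ℕ) (S : Finset ℕ) (v w : ℕ) : Prop := ∀ i, i ∉ S → dig b v i = dig b w i

open Classical in
/-- The closed neighbourhood of the position `i` in the graph `A` on the positions `0, …, k - 1`. -/
noncomputable def nb (k : ℕ) (A : ℕ → ℕ → Prop) (i : ℕ) : Finset ℕ := (range k).filter fun j => j = i ∨ A i j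

open Classical in
/-- The total weight of the integers below `b ^ k` which have the same digits as `v` outside `S`. -/
noncomputable def mass (b k : ℕ) (q : ℕ → ℝ) (S : Finset ℕ) (v : ℕ) : ℝ :=
  ∑ w ∈ (range (b ^ k)).filter (fun w => Off b S w v), q w

/-- The a priori measure: the digits of a random integer `v < b ^ k` (with the probabilities `q v`) form a Markov random
field on a graph `A` of positions with degrees at most `Δ` (for every set `S` of positions and all `v`, `w` which have the
same digits at the positions outside `S` adjacent to `S`, the product `q v * q w` does not change if `v` and `w` exchange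
their digits in `S`), and each digit is flexible: for every `v` with `q v ≠ 0` and every position `i`, there are `x` and `y`
which have the same digits as `v` outside the closed neighbourhood of `i`, which differ from each other exactly at the
position `i`, and whose conditional probabilities, given the digits outside this neighbourhood, are at least `η`. (For
instance, with `Δ = 0`: independent digits, each of which has at least two values with probabilities at least `η`.) -/
structure RandomField (b k Δ : ℕ) (η : ℝ) (A : ℕ → ℕ → Prop) (q : ℕ → ℝ) : Prop where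
  symm : ∀ i j, A i j → A j i
  degree : ∀ i < k, (nb k A i).card ≤ Δ + 1
  nonneg : ∀ v, 0 ≤ q v
  sum : ∑ v ∈ range (b ^ k), q v = 1
  markov : ∀ S : Finset ℕ, ∀ v < b ^ k, ∀ w < b ^ k, (∀ i ∈ S, ∀ j < k, j ∉ S → A i j → dig b v j = dig b w j) →
    q v * q w = q (splice b k S v w) * q (splice b k S w v)
  flexible : ∀ v < b ^ k, q v ≠ 0 → ∀ i < k, ∃ x < b ^ k, ∃ y < b ^ k, Off b (nb k A i) x v ∧ Off b {i} y x ∧
    dig b y i ≠ dig b x i ∧ η * mass b k q (nb k A i) v ≤ q x ∧ η * mass b k q (nb k A i) v ≤ q y

/-- The interactions `φ X`, for all sets `X ⊆ {0, …, k - 1}` of positions: `φ X v` depends only on the digits of `v` at the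
positions in `X`, its absolute value is at most `N X`, and for each position `i` the sum of `exp (r * |X|) * N X` over the
sets `X` which contain `i` is at most `M`. (For instance, pair interactions `φ {i, j}` with `∑ j, N {i, j} ≤ exp (- 2 r) M`
for all `i`, at arbitrary distances.) -/
structure Interaction (b k : ℕ) (M r : ℝ) (φ : Finset ℕ → ℕ → ℝ) (N : Finset ℕ → ℝ) : Prop where
  depends : ∀ X ⊆ range k, ∀ v < b ^ k, ∀ w < b ^ k, (∀ i ∈ X, dig b v i = dig b w i) → φ X v = φ X w
  bound : ∀ X ⊆ range k, ∀ v < b ^ k, |φ X v| ≤ N X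
  summable : ∀ i < k, ∑ X ∈ (range k).powerset.filter (fun X => i ∈ X), Real.exp (r * X.card) * N X ≤ M

/-- The Gibbs weight: the a priori weight times the exponential of the sum of all the interactions. -/
noncomputable def weight (k : ℕ) (q : ℕ → ℝ) (φ : Finset ℕ → ℕ → ℝ) (v : ℕ) : ℝ :=
  q v * Real.exp (∑ X ∈ (range k).powerset, φ X v)

/-- The Gibbs measure: the probability of `v < b ^ k`. -/
noncomputable def gibbs (b k : ℕ) (q : ℕ → ℝ) (φ : Finset ℕ → ℕ → ℝ) (v : ℕ) : ℝ :=
  weight k q φ v / ∑ w ∈ range (b ^ k), weight k q φ w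

lemma field_conv {b k Δ : ℕ} {η : ℝ} {A : ℕ → ℕ → Prop} {q : ℕ → ℝ} (h : RandomField b k Δ η A q) :
    Pool.Agent.N213.GF.Field b k Δ η A q :=
  ⟨h.symm, h.degree, h.nonneg, h.sum, h.markov, h.flexible⟩

lemma inter_conv {b k : ℕ} {M r : ℝ} {φ : Finset ℕ → ℕ → ℝ} {N : Finset ℕ → ℝ} (hb : 2 ≤ b) (h : Interaction b k M r φ N) :
    Pool.Agent.H85G.Inter b k (max M 0) r (fun X v => if X ⊆ range k then φ X v else 0)
      (fun X => if X ⊆ range k then N X else 0) := by
  have h0 : ∀ X ⊆ range k, 0 ≤ N X := by
    intro X hX
    exact (abs_nonneg _).trans (h.bound X hX 0 (by positivity))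
  refine ⟨?_, ?_, ?_, ?_⟩
  · intro X v hv w hw hvw
    split_ifs with hX
    · exact h.depends X hX v hv w hw hvw
    · rfl
  · intro X v hv
    split_ifs with hX
    · exact h.bound X hX v hv
    · rw [abs_zero]
  · intro X
    split_ifs with hX
    · exact h0 X hX
    · exact le_rfl
  · intro i hi
    refine le_trans (le_of_eq ?_) ((h.summable i hi).trans (le_max_left _ _))
    apply sum_congr rfl
    intro X hX
    rw [mem_filter, mem_powerset] at hX
    beta_reduce
    rw [if_pos hX.1]

lemma energy_conv {k : ℕ} (φ : Finset ℕ → ℕ → ℝ) (v : ℕ) :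
    Pool.Agent.H85G.energy k (fun X v => if X ⊆ range k then φ X v else 0) v = ∑ X ∈ (range k).powerset, φ X v := by
  unfold Pool.Agent.H85G.energy
  apply sum_congr rfl
  intro X hX
  beta_reduce
  rw [if_pos (mem_powerset.1 hX)]

lemma gt_conv {b k Δ : ℕ} (hb : 2 ≤ b) {η M r : ℝ} {A : ℕ → ℕ → Prop} {q : ℕ → ℝ} {φ : Finset ℕ → ℕ → ℝ} {N : Finset ℕ → ℝ}
    (hq : RandomField b k Δ η A q) (hφ : Interaction b k M r φ N) :
    Pool.Agent.H85G.GT b Δ η (max M 0) r k (gibbs b k q φ) := by
  refine ⟨A, q, _, _, field_conv hq, inter_conv hb hφ, ?_⟩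
  funext v
  unfold gibbs weight Pool.Agent.H85G.gibbs
  simp only [energy_conv]

/-- `R(x, y) = (π(x + y) - π(x)) / (y / log x)` -/
noncomputable def R (x y : ℝ) : ℝ :=
  ((Nat.primeCounting ⌊x + y⌋₊ : ℝ) - Nat.primeCounting ⌊x⌋₊) / (y / Real.log x)

open Classical in
/-- Let `b ≥ 2`, `Δ`, `η > 0`, `M`, `r > 0`, `κ ≥ 1`, `B ≥ 1`, `U`, `W`, `D` and `0 < ε ≤ 1 / 4` be fixed. There is `K` such that
for all large `k` and all `c ≤ B b ^ k` the following holds for every set `A` of at least `b ^ k / k ^ D` integers of the
interval `[1, B b ^ k]`. Let `v < b ^ k` be a random integer whose digits have the Gibbs distribution of arbitrary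
interactions which are summable at each position (with the bound `M`), with respect to an arbitrary Markov random field with
flexible digits on a graph of positions with degrees at most `Δ`. With a probability of at least `1 - 1 / k ^ U`, for ALL the
numbers `x = c + κ v + t`, `1 ≤ t ≤ k ^ W`, and ALL real `y` with `k ^ K ≤ y ≤ B b ^ k`: the average of `R(a + x, y)` over `a ∈ A`
differs from `1` by at most `ε`, and `R(a + x, y) ≥ ε / 2` for at least `(1 / 4 - ε) |A|` elements `a` of `A`. -/
theorem result (b : ℕ) (hb : 2 ≤ b) (Δ : ℕ) (η : ℝ) (hη : 0 < η) (M r : ℝ) (hr : 0 < r)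
    (κ : ℕ) (hκ : 1 ≤ κ) (B U W D : ℕ) (hB : 1 ≤ B) (ε : ℝ) (hε : 0 < ε) (hε1 : ε ≤ 1 / 4) :
    ∃ K k₀ : ℕ, ∀ k : ℕ, k₀ ≤ k →
    ∀ (G : ℕ → ℕ → Prop) (q : ℕ → ℝ), RandomField b k Δ η G q →
    ∀ (φ : Finset ℕ → ℕ → ℝ) (S : Finset ℕ → ℝ), Interaction b k M r φ S →
    ∀ c : ℕ, c ≤ B * b ^ k →
    ∀ A : Finset ℕ, A ⊆ Icc 1 (B * b ^ k) → (b : ℝ) ^ k / (k : ℝ) ^ D ≤ A.card →
      ∑ v ∈ range (b ^ k), (if ∀ t ∈ Icc 1 (k ^ W), ∀ y : ℝ, (k : ℝ) ^ K ≤ y → y ≤ B * (b : ℝ) ^ k →
          |(∑ a ∈ A, R ((a + (c + κ * v + t) : ℕ) : ℝ) y) / A.card - 1| ≤ ε ∧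
          (1 / 4 - ε) * A.card ≤ ((A.filter fun a => ε / 2 ≤ R ((a + (c + κ * v + t) : ℕ) : ℝ) y).card : ℝ) then 0
        else gibbs b k q φ v) ≤ 1 / (k : ℝ) ^ U := by
  have hGood := Pool.Agent.H85G.gt_good b Δ hb η (max M 0) r hη (le_max_right _ _) hr
  obtain ⟨K, k₀, hk₀⟩ := Pool.Agent.H85G.good_translates b hb (Pool.Agent.H85G.GT b Δ η (max M 0) r) hGood κ hκ B U W D hB ε hε
    hε1
  refine ⟨K, k₀ + 1, fun k hk G q hq φ S hφ c hc A hA hAk => ?_⟩
  obtain ⟨p, hpd⟩ : ∃ p : ℕ → ℝ, p = gibbs b k q φ := ⟨_, rfl⟩
  have hp : Pool.Agent.H85G.GT b Δ η (max M 0) r k p := by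
    rw [hpd]
    exact gt_conv hb hq hφ
  rw [← hpd]
  have hk0 : (0 : ℝ) < k := by exact_mod_cast (by omega : 0 < k)
  rw [div_le_iff₀ (by positivity)] at hAk
  have hR : ∀ (n : ℕ) (y : ℝ), R (n : ℝ) y = Pool.Agent.H85G.RR n y := by
    intro n y
    unfold R Pool.Agent.H85G.RR
    rw [Nat.floor_natCast]
  refine le_trans (le_of_eq ?_) (hk₀ k (by omega) p hp c hc A hA hAk)
  apply sum_congr rfl
  intro v _
  congr 1
  apply propext
  unfold Pool.Agent.H85G.Av
  simp only [hR]

end Pool.Agent.Results.MP_293bbf_nt.LongRangeGibbsTranslates
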