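import Pool.Agent.H85G.R6

/-!
# Primes in short intervals, averaged over dense sets translated by integers composed of few small primes

`R(x, y) = (π(x + y) - π(x)) / (y / log x)`.

Method: the exponential sum over the integers composed of primes from a given set is large only near few rational numbers
with small denominators (`Pool.Agent.N469.SQ.exp_alt`, `sm_one`, library); for distributions with such exponential sums the
primes can be replaced by a model, and `Pool.Agent.H85G.trans_one`, `Pool.Agent.H85G.sm_translates` (from the fundamental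
lemma of the sieve in intervals) gives the averages over translates, for all lengths above a power of `log N`.
-/

set_option autoImplicit false

namespace Pool.Agent.Results.MP_293bbf_nt.SmoothTranslates

open Finset

/-- `R(x, y) = (π(x + y) - π(x)) / (y / log x)` -/
noncomputable def R (x y : ℝ) : ℝ :=
  ((Nat.primeCounting ⌊x + y⌋₊ : ℝ) - Nat.primeCounting ⌊x⌋₊) / (y / Real.log x)

open Classical in
/-- The average of `R(n + x, z)` over the `n ∈ A` differs from `1` by at most `ε`, and `R(n + x, z) ≥ ε / 2` for at least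
`(1 / 4 - ε) |A|` elements `n` of `A`. -/
def Regular (ε : ℝ) (A : Finset ℕ) (x : ℕ) (z : ℝ) : Prop :=
  |(∑ n ∈ A, R ((n + x : ℕ) : ℝ) z) / A.card - 1| ≤ ε ∧
    (1 / 4 - ε) * A.card ≤ ((A.filter fun n => ε / 2 ≤ R ((n + x : ℕ) : ℝ) z).card : ℝ)

/-- `Regular` holds for ALL the numbers `x = u + t` with `1 ≤ t ≤ log ^ W N`, and ALL real `z` with
`log ^ V N ≤ z ≤ B N`. -/
def AllNear (ε : ℝ) (B V W N : ℕ) (A : Finset ℕ) (u : ℕ) : Prop :=
  ∀ t : ℕ, 1 ≤ t → (t : ℝ) ≤ Real.log N ^ W → ∀ z : ℝ, Real.log N ^ V ≤ z → z ≤ B * N → Regular ε A (u + t) z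

/-- The integers `1 ≤ v ≤ N` all of whose prime factors belong to `P`. -/
def composedOf (P : Finset ℕ) (N : ℕ) : Finset ℕ := (Icc 1 N).filter fun v => v.primeFactors ⊆ P

/-- The `y`-smooth integers `1 ≤ v ≤ N`: the integers all of whose prime factors are at most `y`. -/
def smooth (y N : ℕ) : Finset ℕ := (Icc 1 N).filter fun v => ∀ p ∈ v.primeFactors, p ≤ y

open Classical in
/-- Let `κ ≥ 1`, `B`, `K`, `U`, `W`, `D`, `0 < ε ≤ 1 / 4` and `δ > 0` be fixed. There is a number `V` such that the following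
holds for all large `N`. Let `1 ≤ y ≤ log ^ K N`, let `0 ≤ c ≤ B N`, and let `A` be any set of at least `N / log ^ D N`
integers of the interval `[1, B N]`.

(1) Let `P` be an arbitrary set of primes which are at most `y`, with at least `y ^ (1 / 2 + δ) log N` elements. Then
all the integers `v ≤ N` composed of primes from `P`, up to a proportion of at most `1 / log ^ U N` of them, have the following
property: for ALL the numbers `x = c + κ v + t`, `1 ≤ t ≤ log ^ W N`, and ALL real `z` with `log ^ V N ≤ z ≤ B N`: the average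
of `R(n + x, z)` over `n ∈ A` differs from `1` by at most `ε`, and `R(n + x, z) ≥ ε / 2` for at least `(1 / 4 - ε) |A|`
elements `n` of `A`. (There can be as few as about `N ^ (1 / 2 + δ)` such integers `v`.)

(2) In particular this holds for all the `y`-smooth integers `v ≤ N`, up to a proportion of at most `1 / log ^ U N` of them,
if `y ≥ log ^ (2 + δ) N`. -/
theorem result (κ : ℕ) (hκ : 1 ≤ κ) (B K U W D : ℕ) (ε : ℝ) (hε : 0 < ε) (hε1 : ε ≤ 1 / 4) (δ : ℝ) (hδ : 0 < δ) :
    ∃ V N₀ : ℕ, ∀ N : ℕ, N₀ ≤ N → ∀ y : ℕ, 1 ≤ y → (y : ℝ) ≤ Real.log N ^ K → ∀ c : ℕ, c ≤ B * N →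
      ∀ A : Finset ℕ, A ⊆ Icc 1 (B * N) → (N : ℝ) / Real.log N ^ D ≤ A.card →
      (∀ P : Finset ℕ, (∀ p ∈ P, p.Prime ∧ p ≤ y) → (y : ℝ) ^ (1 / 2 + δ) * Real.log N ≤ P.card →
        (((composedOf P N).filter fun v : ℕ => ¬ AllNear ε B V W N A (c + κ * v)).card : ℝ) ≤
          ((composedOf P N).card : ℝ) / Real.log N ^ U) ∧
      (Real.log N ^ (2 + δ) ≤ y →
        (((smooth y N).filter fun v : ℕ => ¬ AllNear ε B V W N A (c + κ * v)).card : ℝ) ≤
          ((smooth y N).card : ℝ) / Real.log N ^ U) := by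
  obtain ⟨V, N₀, h0⟩ := Pool.Agent.N469.TL.bothD δ hδ K U
    (fun V N E => ∃ (c : ℕ) (A : Finset ℕ), c ≤ B * N ∧ A ⊆ Icc 1 (B * N) ∧ (N : ℝ) ≤ (A.card : ℝ) * Real.log N ^ D ∧
        ∀ v, E v → ¬ ∀ t : ℕ, 1 ≤ t → (t : ℝ) ≤ Real.log N ^ W → ∀ z : ℝ, (max 1 (Real.log N)) ^ V ≤ z → z ≤ B * N →
          Pool.Agent.H85G.Av ε A (c + κ * v + t) z) (by
      intro V V' hV N E
      rintro ⟨c, A, hc, hA, hAN, hbad⟩
      refine ⟨c, A, hc, hA, hAN, fun v hv hall => hbad v hv fun t ht1 ht2 z hz1 hz2 => ?_⟩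
      exact hall t ht1 ht2 z ((pow_le_pow_right₀ (le_max_left _ _) hV).trans hz1) hz2)
    (fun δ' hδ' => Pool.Agent.H85G.sm_translates κ K B U W D hκ ε hε hε1 δ' hδ')
  refine ⟨V, N₀ + 3, fun N hN y hy hy' c hc A hA hAN => ?_⟩
  have hN3 : (3 : ℝ) ≤ N := by exact_mod_cast (by omega : 3 ≤ N)
  have hL1 : 1 ≤ Real.log N := by
    rw [Real.le_log_iff_exp_le (by linarith)]
    have := Real.exp_one_lt_d9
    linarith
  have hL : 0 < Real.log N := by linarith
  rw [div_le_iff₀ (by positivity)] at hAN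
  have hR : ∀ (n : ℕ) (y : ℝ), R (n : ℝ) y = Pool.Agent.H85G.RR n y := by
    intro n y
    unfold R Pool.Agent.H85G.RR
    rw [Nat.floor_natCast]
  have hreg : ∀ (x : ℕ) (z : ℝ), Regular ε A x z ↔ Pool.Agent.H85G.Av ε A x z := by
    intro x z
    unfold Regular Pool.Agent.H85G.Av
    simp only [hR]
  refine h0 N (by omega) y hy hy' (fun v : ℕ => ¬ AllNear ε B V W N A (c + κ * v)) (fun v => inferInstance)
    ⟨c, A, hc, hA, hAN, fun v hv hall => hv ?_⟩
  intro t ht1 ht2 z hz1 hz2
  rw [hreg]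
  refine hall t ht1 ht2 z ?_ hz2
  rw [max_eq_right hL1]
  exact hz1

end Pool.Agent.Results.MP_293bbf_nt.SmoothTranslates
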